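import Mathlib

set_option autoImplicit false

/-!
# Dense subsequences with pairwise irrational distances

There is a dense sequence of pairwise different points of the plane such that every dense
subsequence of it has two terms at rational distance.

Construction: let `g 0, g 1, ...` be a sequence that is dense in the open left half plane. For every
`m` let `D m` be a countable dense subset of the strip `m ≤ x < m + 1` all of whose points have
rational distance from `g m`. The sequence enumerates the union of all these sets. A dense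
subsequence has a term in the left half plane, say `g m`, and a term in the open strip
`m < x < m + 1`, and these two terms are at rational distance.
-/

namespace Pool.Agent.Results.MP_9c82d2_co.NoIrrationalSubsequence

open TopologicalSpace

/-- The Euclidean plane. -/
abbrev E := EuclideanSpace ℝ (Fin 2)

/-- The points of the strip `m ≤ x < m + 1` at rational distance from `g`. -/
def R (g : E) (m : ℕ) : Set E :=
  {y : E | 0 ≤ y 0 ∧ ⌊y 0⌋₊ = m ∧ ∃ q : ℚ, dist y g = (q : ℝ)}

lemma abs_coord_le (x y : E) (i : Fin 2) : |x i - y i| ≤ dist x y := by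
  have h := EuclideanSpace.norm_eq (x - y)
  rw [dist_eq_norm, h]
  apply Real.abs_le_sqrt
  have h1 := Finset.single_le_sum (f := fun i => ‖(x - y) i‖ ^ 2)
    (fun i _ => sq_nonneg _) (Finset.mem_univ i)
  simpa using h1

lemma mem_closure_R (g : E) (hg : g 0 < 0) (p : E) (hp : 0 ≤ p 0) :
    p ∈ closure (R g ⌊p 0⌋₊) := by
  rw [Metric.mem_closure_iff]
  intro ε hε
  have hfl : p 0 < (⌊p 0⌋₊ : ℝ) + 1 := Nat.lt_floor_add_one (p 0)
  set δ : ℝ := min ε ((⌊p 0⌋₊ : ℝ) + 1 - p 0) with hδ
  have hδ0 : 0 < δ := lt_min hε (by linarith)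
  have hne : p ≠ g := by
    rintro rfl
    linarith
  have hd : 0 < dist p g := dist_pos.2 hne
  obtain ⟨r, hr1, hr2⟩ := exists_rat_btwn (show dist p g < dist p g + δ by linarith)
  set t : ℝ := (r : ℝ) / dist p g with ht
  have ht1 : 1 < t := by rw [ht, one_lt_div hd]; exact hr1
  set y : E := g + t • (p - g) with hy
  have hyp : y - p = (t - 1) • (p - g) := by
    rw [hy, sub_smul, one_smul]
    abel
  have hyg : y - g = t • (p - g) := by
    rw [hy]
    abel
  have hdyp : dist p y = (r : ℝ) - dist p g := by
    rw [dist_comm, dist_eq_norm, hyp, norm_smul, Real.norm_eq_abs, abs_of_pos (by linarith),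
      ← dist_eq_norm, ht]
    field_simp
  have hdyg : dist y g = r := by
    rw [dist_eq_norm, hyg, norm_smul, Real.norm_eq_abs, abs_of_pos (by linarith),
      ← dist_eq_norm, ht]
    field_simp
  have hlt : dist p y < δ := by
    rw [hdyp]
    linarith
  have hy0 : y 0 = p 0 + (t - 1) * (p 0 - g 0) := by
    have h := congrArg (fun v : E => v 0) hyp
    simp only [PiLp.sub_apply, PiLp.smul_apply, smul_eq_mul] at h
    linarith
  have hge : p 0 ≤ y 0 := by
    rw [hy0]
    have : 0 ≤ (t - 1) * (p 0 - g 0) := mul_nonneg (by linarith) (by linarith)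
    linarith
  have hlt2 : y 0 < (⌊p 0⌋₊ : ℝ) + 1 := by
    have h1 := abs_coord_le p y 0
    have h2 : dist p y < (⌊p 0⌋₊ : ℝ) + 1 - p 0 := lt_of_lt_of_le hlt (min_le_right _ _)
    have h3 := neg_abs_le (p 0 - y 0)
    linarith
  refine ⟨y, ⟨hp.trans hge, ?_, r, hdyg⟩, lt_of_lt_of_le hlt (min_le_left _ _)⟩
  rw [Nat.floor_eq_iff (hp.trans hge)]
  exact ⟨(Nat.floor_le hp).trans hge, hlt2⟩

/-- **Answer to the question: no.** There is a dense sequence of pairwise different points of the
plane that has no dense subsequence in which all distances are irrational. -/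
theorem result : ∃ x : ℕ → EuclideanSpace ℝ (Fin 2), Function.Injective x ∧ DenseRange x ∧
    ¬ ∃ φ : ℕ → ℕ, StrictMono φ ∧ DenseRange (x ∘ φ) ∧
      ∀ k l : ℕ, k ≠ l → Irrational (dist (x (φ k)) (x (φ l))) := by
  classical
  set H : Set E := {p : E | p 0 < 0} with hH
  have hcont : Continuous (fun p : E => p 0) := by fun_prop
  have hHo : IsOpen H := isOpen_lt hcont continuous_const
  have hHne : H.Nonempty := ⟨EuclideanSpace.single 0 (-1), by simp [hH]⟩
  obtain ⟨T, hTH, hTc, hTd⟩ := (IsSeparable.of_separableSpace H).exists_countable_dense_subset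
  have hTne : T.Nonempty := by
    rw [← closure_nonempty_iff]
    exact hHne.mono hTd
  obtain ⟨g, hg⟩ := hTc.exists_eq_range hTne
  have hg0 : ∀ m, g m 0 < 0 := fun m => hTH (hg ▸ Set.mem_range_self m)
  choose D hDR hDc hDd using fun m : ℕ =>
    (IsSeparable.of_separableSpace (R (g m) m)).exists_countable_dense_subset
  set X : Set E := T ∪ ⋃ m, D m with hX
  have hXc : X.Countable := hTc.union (Set.countable_iUnion hDc)
  have hXd : Dense X := by
    intro p
    by_cases hp : p 0 < 0
    · exact closure_mono Set.subset_union_left (hTd hp)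
    · push Not at hp
      have h1 := mem_closure_R (g ⌊p 0⌋₊) (hg0 _) p hp
      have h2 := closure_minimal (hDd ⌊p 0⌋₊) isClosed_closure h1
      exact closure_mono ((Set.subset_iUnion D ⌊p 0⌋₊).trans Set.subset_union_right) h2
  have hXi : X.Infinite := by
    intro hfin
    have h1 : X = Set.univ := by
      rw [← hfin.isClosed.closure_eq]
      exact hXd.closure_eq
    rw [h1] at hfin
    exact Set.infinite_univ hfin
  obtain ⟨hden⟩ := Set.countable_infinite_iff_nonempty_denumerable.1 ⟨hXc, hXi⟩
  let e : ℕ ≃ X := (Denumerable.eqv X).symm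
  refine ⟨fun n => (e n : E), fun a b h => e.injective (Subtype.ext h), ?_, ?_⟩
  · have : Set.range (fun n => (e n : E)) = X := by
      ext p
      constructor
      · rintro ⟨n, rfl⟩
        exact (e n).2
      · intro hp
        exact ⟨e.symm ⟨p, hp⟩, by simp⟩
    rw [DenseRange, this]
    exact hXd
  · rintro ⟨φ, -, hφ, hirr⟩
    obtain ⟨k, hk⟩ := hφ.exists_mem_open hHo hHne
    simp only [Function.comp_apply] at hk
    have hkT : (e (φ k) : E) ∈ T := by
      rcases (e (φ k)).2 with h | h
      · exact h
      · obtain ⟨m, hm⟩ := Set.mem_iUnion.1 h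
        have h1 := (hDR m hm).1
        have h2 : (e (φ k) : E) 0 < 0 := hk
        linarith
    rw [hg] at hkT
    obtain ⟨m, hm⟩ := hkT
    set U : Set E := {p : E | (m : ℝ) < p 0 ∧ p 0 < (m : ℝ) + 1} with hU
    have hUo : IsOpen U := (isOpen_lt continuous_const hcont).inter (isOpen_lt hcont continuous_const)
    have hUne : U.Nonempty := ⟨EuclideanSpace.single 0 ((m : ℝ) + 1 / 2), by
      simp only [hU, Set.mem_ofPred_eq, PiLp.single_apply, if_true]
      constructor <;> norm_num⟩
    obtain ⟨l, hl⟩ := hφ.exists_mem_open hUo hUne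
    simp only [Function.comp_apply] at hl
    have hl1 : (m : ℝ) < (e (φ l) : E) 0 := hl.1
    have hl2 : (e (φ l) : E) 0 < (m : ℝ) + 1 := hl.2
    have hm0 : (0 : ℝ) ≤ m := Nat.cast_nonneg m
    have hlD : ∃ m', (e (φ l) : E) ∈ D m' := by
      rcases (e (φ l)).2 with h | h
      · have h1 : (e (φ l) : E) 0 < 0 := hTH h
        linarith
      · exact Set.mem_iUnion.1 h
    obtain ⟨m', hm'⟩ := hlD
    obtain ⟨h1, h2, q, hq⟩ := hDR m' hm'
    have h3 : m' = m := by
      rw [← h2, Nat.floor_eq_iff h1]
      exact ⟨hl1.le, hl2⟩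
    subst h3
    have hkl : l ≠ k := by
      rintro rfl
      have h4 : (e (φ l) : E) 0 < 0 := hk
      linarith
    have h5 : dist (e (φ l) : E) (e (φ k) : E) = (q : ℝ) := by rw [← hm, hq]
    exact hirr l k hkl ⟨q, h5.symm⟩

end Pool.Agent.Results.MP_9c82d2_co.NoIrrationalSubsequence
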